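import Mathlib
import Pool.Agent.Q312.Walks

/-!
MP_78a33a_lc: a tree language which is recognized by a Parikh tree automaton with reset (PTAR) with
two counters, but by no Parikh tree automaton without reset.
-/

namespace Pool.Agent.Results.MP_78a33a_lc.ResetNeeded

open Pool.Agent.Q312.Walks
open scoped Pointwise

/-- Finite trees over a ranked alphabet `S` with rank map `rk`. -/
inductive Tree (S : Type) (rk : S → ℕ) : Type
  | node (s : S) (c : Fin (rk s) → Tree S rk) : Tree S rk

/-- Parikh tree automata with reset and `m` counters. A transition from the state `q` at a node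
labelled `s` is a tuple of pairs `(q i, e i)`, one for each child; `e i = none` is the reset and
`e i = some e` is the increment `e`. For `s` of rank `0` there is exactly one tuple, the empty one,
and the transition exists iff it belongs to `Δ q s`. -/
structure PTAR (S : Type) (rk : S → ℕ) (m : ℕ) where
  /-- states -/
  Q : Type
  finQ : Finite Q
  /-- initial state -/
  q0 : Q
  /-- final set -/
  C : Set (Fin m → ℕ)
  semi : IsSemilinearSet C
  /-- transitions -/
  Δ : Q → (s : S) → Set (Fin (rk s) → Q × Option (Fin m → ℕ))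
  finΔ : ∀ q s, (Δ q s).Finite

/-- the new value of the counters -/
def upd {m : ℕ} (v : Fin m → ℕ) : Option (Fin m → ℕ) → (Fin m → ℕ)
  | none => 0
  | some e => v + e

/-- There is a run on the tree starting with the state `q` and the counters `v`. -/
def PTAR.Acc {S : Type} {rk : S → ℕ} {m : ℕ} (A : PTAR S rk m) :
    Tree S rk → A.Q → (Fin m → ℕ) → Prop
  | .node s c, q, v => (rk s = 0 → v ∈ A.C) ∧
      ∃ t ∈ A.Δ q s, ∀ i, A.Acc (c i) (t i).1 (upd v (t i).2)

/-- The tree language of the automaton. -/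
def PTAR.language {S : Type} {rk : S → ℕ} {m : ℕ} (A : PTAR S rk m) : Set (Tree S rk) :=
  {ξ | A.Acc ξ A.q0 0}

/-- No transition contains a reset. -/
def PTAR.NoReset {S : Type} {rk : S → ℕ} {m : ℕ} (A : PTAR S rk m) : Prop :=
  ∀ q s, ∀ t ∈ A.Δ q s, ∀ i, (t i).2 ≠ none

/-- PTAR-recognizable tree languages. -/
def PTARRecognizable {S : Type} {rk : S → ℕ} (L : Set (Tree S rk)) : Prop :=
  ∃ m : ℕ, 1 ≤ m ∧ ∃ A : PTAR S rk m, A.language = L

/-- PTA-recognizable tree languages. -/
def PTARecognizable {S : Type} {rk : S → ℕ} (L : Set (Tree S rk)) : Prop :=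
  ∃ m : ℕ, 1 ≤ m ∧ ∃ A : PTAR S rk m, A.NoReset ∧ A.language = L

/-! ### The alphabet and the trees -/

/-- the alphabet -/
inductive Sym
  | sig
  | a
  | b
  | al

/-- the ranks -/
def rk : Sym → ℕ
  | .sig => 2
  | .a => 1
  | .b => 1
  | .al => 0

instance : Finite Sym :=
  Finite.of_injective (fun s : Sym => (match s with
    | .sig => 0 | .a => 1 | .b => 2 | .al => 3 : Fin 4)) (by
    intro s t h
    cases s <;> cases t <;> first | rfl | (simp at h))

/-- the leaf -/
def leaf : Tree Sym rk := .node .al (fun i => Fin.elim0 i)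

/-- the binary node -/
def sg (l r : Tree Sym rk) : Tree Sym rk := .node .sig (fun i => if i.val = 0 then l else r)

/-- `a(t)` -/
def ua (t : Tree Sym rk) : Tree Sym rk := .node .a (fun _ => t)

/-- `b(t)` -/
def ub (t : Tree Sym rk) : Tree Sym rk := .node .b (fun _ => t)

/-- `a^n σ(b^k α, a^n' σ(b^k' α, ...))` -/
def comb : ℕ → (ℕ → ℕ × ℕ) → Tree Sym rk
  | 0, _ => leaf
  | K + 1, f => ua^[(f 0).1] (sg (ub^[(f 0).2] leaf) (comb K fun i => f (i + 1)))

section acc

variable {m : ℕ} (A : PTAR Sym rk m)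

lemma acc_leaf (q : A.Q) (v : Fin m → ℕ) :
    A.Acc leaf q v ↔ v ∈ A.C ∧ (A.Δ q .al).Nonempty := by
  constructor
  · rintro ⟨h1, t, ht, -⟩
    exact ⟨h1 rfl, t, ht⟩
  · rintro ⟨h1, t, ht⟩
    exact ⟨fun _ => h1, t, ht, fun i => Fin.elim0 i⟩

lemma acc_sg (l r : Tree Sym rk) (q : A.Q) (v : Fin m → ℕ) :
    A.Acc (sg l r) q v ↔ ∃ t ∈ A.Δ q .sig, A.Acc l (t (0 : Fin 2)).1 (upd v (t (0 : Fin 2)).2) ∧
      A.Acc r (t (1 : Fin 2)).1 (upd v (t (1 : Fin 2)).2) := by
  constructor
  · rintro ⟨-, t, ht, h⟩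
    exact ⟨t, ht, h (0 : Fin 2), h (1 : Fin 2)⟩
  · rintro ⟨t, ht, h1, h2⟩
    refine ⟨fun h => absurd h (by decide), t, ht, fun i => ?_⟩
    change A.Acc (if i.val = 0 then l else r) _ _
    have hi : i.val < 2 := i.2
    rcases Nat.eq_zero_or_pos i.val with h | h
    · have : i = (0 : Fin 2) := Fin.ext h
      subst this
      exact h1
    · have : i = (1 : Fin 2) := Fin.ext (by change i.val = 1; omega)
      subst this
      exact h2

lemma acc_ua (t : Tree Sym rk) (q : A.Q) (v : Fin m → ℕ) :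
    A.Acc (ua t) q v ↔ ∃ τ ∈ A.Δ q .a, A.Acc t (τ (0 : Fin 1)).1 (upd v (τ (0 : Fin 1)).2) := by
  constructor
  · rintro ⟨-, τ, ht, h⟩
    exact ⟨τ, ht, h (0 : Fin 1)⟩
  · rintro ⟨τ, ht, h1⟩
    refine ⟨fun h => absurd h (by decide), τ, ht, fun i => ?_⟩
    have : i = (0 : Fin 1) := Subsingleton.elim (α := Fin 1) _ _
    subst this
    exact h1

lemma acc_ub (t : Tree Sym rk) (q : A.Q) (v : Fin m → ℕ) :
    A.Acc (ub t) q v ↔ ∃ τ ∈ A.Δ q .b, A.Acc t (τ (0 : Fin 1)).1 (upd v (τ (0 : Fin 1)).2) := by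
  constructor
  · rintro ⟨-, τ, ht, h⟩
    exact ⟨τ, ht, h (0 : Fin 1)⟩
  · rintro ⟨τ, ht, h1⟩
    refine ⟨fun h => absurd h (by decide), τ, ht, fun i => ?_⟩
    have : i = (0 : Fin 1) := Subsingleton.elim (α := Fin 1) _ _
    subst this
    exact h1

end acc

/-! ### The automaton with reset -/

/-- the transitions -/
def tr0 : Bool → (s : Sym) → Set (Fin (rk s) → Bool × Option (Fin 2 → ℕ))
  | false, .sig => {fun i => if i.val = 0 then (true, some 0) else (false, none)}
  | false, .a => {fun _ => (false, some ![1, 0])}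
  | false, .b => ∅
  | false, .al => Set.univ
  | true, .sig => ∅
  | true, .a => ∅
  | true, .b => {fun _ => (true, some ![0, 1])}
  | true, .al => Set.univ

/-- The automaton with reset: the state `false` is used on the spine, it counts the letters `a`; the
state `true` is used on the left branches, it counts the letters `b`. -/
def A0 : PTAR Sym rk 2 where
  Q := Bool
  finQ := inferInstance
  q0 := false
  C := {v | v 0 = v 1}
  semi := by
    have := isSemilinearSet_setOfPred_eq (M := Fin 2 → ℕ) (N := ℕ) 0 0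
      (Pi.evalAddMonoidHom (fun _ : Fin 2 => ℕ) 0) (Pi.evalAddMonoidHom (fun _ : Fin 2 => ℕ) 1)
    simpa using this
  Δ := tr0
  finΔ := by
    intro q s
    cases q <;> cases s
    · exact Set.finite_singleton _
    · exact Set.finite_singleton _
    · exact Set.finite_empty
    · exact (Set.finite_univ_iff (α := Fin 0 → Bool × Option (Fin 2 → ℕ))).mpr inferInstance
    · exact Set.finite_empty
    · exact Set.finite_empty
    · exact Set.finite_singleton _
    · exact (Set.finite_univ_iff (α := Fin 0 → Bool × Option (Fin 2 → ℕ))).mpr inferInstance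

/-- the state on the spine -/
def sp : A0.Q := false

/-- the state on the branches -/
def br : A0.Q := true

lemma A0_branch (k : ℕ) (v : Fin 2 → ℕ) : A0.Acc (ub^[k] leaf) br v ↔ v 0 = v 1 + k := by
  induction k generalizing v with
  | zero =>
    rw [Function.iterate_zero, id, acc_leaf]
    constructor
    · exact fun h => h.1
    · exact fun h => ⟨h, Set.univ_nonempty (α := Fin 0 → Bool × Option (Fin 2 → ℕ))⟩
  | succ k ih =>
    rw [Function.iterate_succ_apply', acc_ub]
    constructor
    · rintro ⟨τ, hτ, h⟩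
      have hτ' : τ = fun _ => (br, some ![0, 1]) := hτ
      subst hτ'
      have := (ih _).mp h
      simp [upd] at this
      omega
    · intro h
      refine ⟨fun _ => (br, some ![0, 1]), rfl, (ih _).mpr ?_⟩
      simp [upd]
      omega

lemma A0_spine (n : ℕ) (t : Tree Sym rk) (v : Fin 2 → ℕ) :
    A0.Acc (ua^[n] t) sp v ↔ A0.Acc t sp (v + ![n, 0]) := by
  induction n generalizing v with
  | zero =>
    rw [Function.iterate_zero, id]
    have : (![(0 : ℕ), 0] : Fin 2 → ℕ) = 0 := by ext i; fin_cases i <;> rfl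
    rw [this, add_zero]
  | succ n ih =>
    rw [Function.iterate_succ_apply', acc_ua]
    have e : ∀ v : Fin 2 → ℕ, v + ![1, 0] + ![n, 0] = v + ![n + 1, 0] := by
      intro v
      ext i
      fin_cases i
      · change v 0 + 1 + n = v 0 + (n + 1)
        omega
      · rfl
    constructor
    · rintro ⟨τ, hτ, h⟩
      have hτ' : τ = fun _ => (sp, some ![1, 0]) := hτ
      subst hτ'
      have := (ih _).mp h
      simp only [upd, e] at this
      exact this
    · intro h
      refine ⟨fun _ => (sp, some ![1, 0]), rfl, (ih _).mpr ?_⟩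
      simp only [upd, e]
      exact h

lemma A0_comb (K : ℕ) (f : ℕ → ℕ × ℕ) :
    A0.Acc (comb K f) sp 0 ↔ ∀ i < K, (f i).1 = (f i).2 := by
  induction K generalizing f with
  | zero =>
    simp only [comb, not_lt_zero, IsEmpty.forall_iff, implies_true, iff_true]
    rw [acc_leaf]
    exact ⟨rfl, Set.univ_nonempty (α := Fin 0 → Bool × Option (Fin 2 → ℕ))⟩
  | succ K ih =>
    have key : A0.Acc (comb (K + 1) f) sp 0 ↔
        (f 0).1 = (f 0).2 ∧ A0.Acc (comb K fun i => f (i + 1)) sp 0 := by
      rw [comb, A0_spine, acc_sg]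
      constructor
      · rintro ⟨t, ht, h1, h2⟩
        have ht' : t = fun i => if i.val = 0 then (br, some 0) else (sp, none) := ht
        subst ht'
        have h3 := (A0_branch _ _).mp h1
        simp [upd] at h3
        exact ⟨h3, h2⟩
      · rintro ⟨h1, h2⟩
        refine ⟨fun i => if i.val = 0 then (br, some 0) else (sp, none), rfl, ?_, h2⟩
        refine (A0_branch _ _).mpr ?_
        simp [upd]
        exact h1
    rw [key, ih]
    constructor
    · rintro ⟨h1, h2⟩ i hi
      rcases i with _ | i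
      · exact h1
      · exact h2 i (by omega)
    · intro h
      exact ⟨h 0 (by omega), fun i hi => h (i + 1) (by omega)⟩

/-! ### Runs of an automaton without reset on the trees `comb K f` -/

section runs

variable {m : ℕ} (B : PTAR Sym rk m)

/-- counter vectors -/
abbrev Vc (m : ℕ) : Type := Fin m → ℕ

/-- transitions at a letter `a`, with values in `ℕ × ℕ^m` (length and increment) -/
def Ra (q r : B.Q) : Set (ℕ × Vc m) :=
  {v | ∃ τ ∈ B.Δ q .a, ∃ e, τ (0 : Fin 1) = (r, some e) ∧ v = (1, e)}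

/-- transitions at a letter `b` -/
def Rb (q r : B.Q) : Set (ℕ × Vc m) :=
  {v | ∃ τ ∈ B.Δ q .b, ∃ e, τ (0 : Fin 1) = (r, some e) ∧ v = (1, e)}

lemma finite_Ra (q r : B.Q) : (Ra B q r).Finite := by
  apply ((B.finΔ q .a).image fun τ => ((1 : ℕ), ((τ (0 : Fin 1)).2.getD 0 : Vc m))).subset
  rintro v ⟨τ, hτ, e, h1, rfl⟩
  exact ⟨τ, hτ, by simp [h1]⟩

lemma finite_Rb (q r : B.Q) : (Rb B q r).Finite := by
  apply ((B.finΔ q .b).image fun τ => ((1 : ℕ), ((τ (0 : Fin 1)).2.getD 0 : Vc m))).subset
  rintro v ⟨τ, hτ, e, h1, rfl⟩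
  exact ⟨τ, hτ, by simp [h1]⟩

lemma acc_uan (hB : B.NoReset) (n : ℕ) (t : Tree Sym rk) (q : B.Q) (v : Vc m) :
    B.Acc (ua^[n] t) q v ↔ ∃ p x, Walk (Ra B) q p (n, x) ∧ B.Acc t p (v + x) := by
  constructor
  · induction n generalizing q v with
    | zero =>
      intro h
      exact ⟨q, 0, .nil q, by rw [add_zero]; exact h⟩
    | succ n ih =>
      rw [Function.iterate_succ_apply', acc_ua]
      rintro ⟨τ, hτ, h⟩
      obtain ⟨e, he⟩ := Option.ne_none_iff_exists'.mp (hB q .a τ hτ (0 : Fin 1))
      rw [he] at h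
      obtain ⟨p, x, h1, h2⟩ := ih _ _ h
      refine ⟨p, e + x, ?_, ?_⟩
      · have h3 : ((n + 1, e + x) : ℕ × Vc m) = (1, e) + (n, x) := by
          rw [Prod.mk_add_mk, add_comm 1 n]
        rw [h3]
        exact .cons ⟨τ, hτ, e, Prod.ext rfl he, rfl⟩ h1
      · rw [← add_assoc]; exact h2
  · rintro ⟨p, x, h1, h2⟩
    generalize hz : ((n, x) : ℕ × Vc m) = z at h1
    induction h1 generalizing n x v with
    | nil q =>
      have h3 : n = 0 := congrArg Prod.fst hz
      have h4 : x = 0 := congrArg Prod.snd hz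
      subst h3 h4
      rw [add_zero] at h2
      exact h2
    | @cons q r q' u w h3 _ ih =>
      obtain ⟨τ, hτ, e, he, rfl⟩ := h3
      obtain ⟨n', x'⟩ := w
      have h3 : n = 1 + n' := congrArg Prod.fst hz
      have h4 : x = e + x' := congrArg Prod.snd hz
      subst h3 h4
      rw [add_comm 1 n', Function.iterate_succ_apply', acc_ua]
      refine ⟨τ, hτ, ?_⟩
      rw [he]
      refine ih n' _ x' ?_ rfl
      change B.Acc t q' (v + e + x')
      rw [add_assoc]
      exact h2

lemma acc_ubn (hB : B.NoReset) (n : ℕ) (t : Tree Sym rk) (q : B.Q) (v : Vc m) :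
    B.Acc (ub^[n] t) q v ↔ ∃ p x, Walk (Rb B) q p (n, x) ∧ B.Acc t p (v + x) := by
  constructor
  · induction n generalizing q v with
    | zero =>
      intro h
      exact ⟨q, 0, .nil q, by rw [add_zero]; exact h⟩
    | succ n ih =>
      rw [Function.iterate_succ_apply', acc_ub]
      rintro ⟨τ, hτ, h⟩
      obtain ⟨e, he⟩ := Option.ne_none_iff_exists'.mp (hB q .b τ hτ (0 : Fin 1))
      rw [he] at h
      obtain ⟨p, x, h1, h2⟩ := ih _ _ h
      refine ⟨p, e + x, ?_, ?_⟩
      · have h3 : ((n + 1, e + x) : ℕ × Vc m) = (1, e) + (n, x) := by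
          rw [Prod.mk_add_mk, add_comm 1 n]
        rw [h3]
        exact .cons ⟨τ, hτ, e, Prod.ext rfl he, rfl⟩ h1
      · rw [← add_assoc]; exact h2
  · rintro ⟨p, x, h1, h2⟩
    generalize hz : ((n, x) : ℕ × Vc m) = z at h1
    induction h1 generalizing n x v with
    | nil q =>
      have h3 : n = 0 := congrArg Prod.fst hz
      have h4 : x = 0 := congrArg Prod.snd hz
      subst h3 h4
      rw [add_zero] at h2
      exact h2
    | @cons q r q' u w h3 _ ih =>
      obtain ⟨τ, hτ, e, he, rfl⟩ := h3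
      obtain ⟨n', x'⟩ := w
      have h3 : n = 1 + n' := congrArg Prod.fst hz
      have h4 : x = e + x' := congrArg Prod.snd hz
      subst h3 h4
      rw [add_comm 1 n', Function.iterate_succ_apply', acc_ub]
      refine ⟨τ, hτ, ?_⟩
      rw [he]
      refine ih n' _ x' ?_ rfl
      change B.Acc t q' (v + e + x')
      rw [add_assoc]
      exact h2

/-- entries: a state and an increment -/
abbrev En : Type := B.Q × Vc m

/-- segments of the spine: from the entry `en` to the state `p` -/
def Xs (en : En B) (p : B.Q) : Set (ℕ × Vc m) :=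
  ((0, en.2) : ℕ × Vc m) +ᵥ {v | Walk (Ra B) en.1 p v}

/-- left branches with the entry `le` -/
def Ys (le : En B) : Set (ℕ × Vc m) :=
  ((0, le.2) : ℕ × Vc m) +ᵥ ⋃ p : {p : B.Q // (B.Δ p .al).Nonempty}, {v | Walk (Rb B) le.1 p v}

lemma mem_Xs (en : En B) (p : B.Q) (n : ℕ) (x : Vc m) :
    (n, x) ∈ Xs B en p ↔ ∃ x', Walk (Ra B) en.1 p (n, x') ∧ x = en.2 + x' := by
  unfold Xs
  rw [Set.mem_vadd_set]
  constructor
  · rintro ⟨⟨n', x'⟩, h1, h2⟩
    have h3 : 0 + n' = n := congrArg Prod.fst h2
    have h4 : en.2 + x' = x := congrArg Prod.snd h2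
    rw [zero_add] at h3
    subst h3
    exact ⟨x', h1, h4.symm⟩
  · rintro ⟨x', h1, h2⟩
    exact ⟨(n, x'), h1, Prod.ext (zero_add n) h2.symm⟩

lemma mem_Ys (le : En B) (n : ℕ) (y : Vc m) :
    (n, y) ∈ Ys B le ↔ ∃ p, (B.Δ p .al).Nonempty ∧
      ∃ y', Walk (Rb B) le.1 p (n, y') ∧ y = le.2 + y' := by
  unfold Ys
  rw [Set.mem_vadd_set]
  constructor
  · rintro ⟨⟨n', y'⟩, h1, h2⟩
    have h3 : 0 + n' = n := congrArg Prod.fst h2
    have h4 : le.2 + y' = y := congrArg Prod.snd h2
    rw [zero_add] at h3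
    subst h3
    obtain ⟨⟨p, hp⟩, h5⟩ := Set.mem_iUnion.mp h1
    exact ⟨p, hp, y', h5, h4.symm⟩
  · rintro ⟨p, hp, y', h1, h2⟩
    exact ⟨(n, y'), Set.mem_iUnion.mpr ⟨⟨p, hp⟩, h1⟩, Prod.ext (zero_add n) h2.symm⟩

/-- the transitions at a binary node -/
def Sg (p : B.Q) (le ri : En B) : Prop :=
  ∃ τ ∈ B.Δ p .sig, τ (0 : Fin 2) = (le.1, some le.2) ∧ τ (1 : Fin 2) = (ri.1, some ri.2)

/-- the skeleton `en, p, le` and the vectors `x, y` describe an accepting run on `comb K f`,
starting with the counters `v` -/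
def Run (K : ℕ) (f : ℕ → ℕ × ℕ) (v : Vc m) (en : ℕ → En B) (p : ℕ → B.Q) (le : ℕ → En B)
    (x y : ℕ → Vc m) : Prop :=
  (∀ j < K, Sg B (p j) (le j) (en (j + 1))) ∧
  (∀ j < K, ((f j).1, x j) ∈ Xs B (en j) (p j)) ∧
  (∀ j < K, ((f j).2, y j) ∈ Ys B (le j)) ∧
  (∀ j < K, v + ∑ i ∈ Finset.range (j + 1), x i + y j ∈ B.C) ∧
  v + ∑ i ∈ Finset.range K, x i + (en K).2 ∈ B.C ∧ (B.Δ (en K).1 .al).Nonempty

lemma run_of_acc (hB : B.NoReset) (K : ℕ) (f : ℕ → ℕ × ℕ) (v u : Vc m) (q : B.Q)
    (h : B.Acc (comb K f) q (v + u)) :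
    ∃ en p le x y, en 0 = (q, u) ∧ Run B K f v en p le x y := by
  induction K generalizing f v u q with
  | zero =>
    rw [comb, acc_leaf] at h
    refine ⟨fun _ => (q, u), fun _ => q, fun _ => (q, u), fun _ => 0, fun _ => 0, rfl, ?_, ?_, ?_,
      ?_, ?_, ?_⟩
    · exact fun j hj => absurd hj (Nat.not_lt_zero j)
    · exact fun j hj => absurd hj (Nat.not_lt_zero j)
    · exact fun j hj => absurd hj (Nat.not_lt_zero j)
    · exact fun j hj => absurd hj (Nat.not_lt_zero j)
    · simpa using h.1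
    · exact h.2
  | succ K ih =>
    rw [comb, acc_uan B hB] at h
    obtain ⟨p, x', h1, h2⟩ := h
    rw [acc_sg] at h2
    obtain ⟨τ, hτ, h3, h4⟩ := h2
    obtain ⟨e0, he0⟩ := Option.ne_none_iff_exists'.mp (hB p .sig τ hτ (0 : Fin 2))
    obtain ⟨e1, he1⟩ := Option.ne_none_iff_exists'.mp (hB p .sig τ hτ (1 : Fin 2))
    rw [he0] at h3
    rw [he1] at h4
    rw [acc_ubn B hB] at h3
    obtain ⟨r, y', h5, h6⟩ := h3
    rw [acc_leaf] at h6
    have h4' : B.Acc (comb K fun i => f (i + 1)) (τ (1 : Fin 2)).1 ((v + (u + x')) + e1) := by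
      rw [← add_assoc]; exact h4
    obtain ⟨en', p', le', xx, yy, h7, h8, h9, h10, h11, h12, h13⟩ := ih _ _ _ _ h4'
    refine ⟨fun j => Nat.casesOn j (q, u) en', fun j => Nat.casesOn j p p',
      fun j => Nat.casesOn j ((τ (0 : Fin 2)).1, e0) le', fun j => Nat.casesOn j (u + x') xx,
      fun j => Nat.casesOn j (e0 + y') yy, rfl, ?_, ?_, ?_, ?_, ?_, ?_⟩
    · intro j hj
      rcases j with _ | j
      · refine ⟨τ, hτ, Prod.ext rfl he0, ?_⟩
        change τ (1 : Fin 2) = ((en' 0).1, some (en' 0).2)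
        rw [h7]
        exact Prod.ext rfl he1
      · exact h8 j (by omega)
    · intro j hj
      rcases j with _ | j
      · exact (mem_Xs B _ _ _ _).mpr ⟨x', h1, rfl⟩
      · exact h9 j (by omega)
    · intro j hj
      rcases j with _ | j
      · exact (mem_Ys B _ _ _).mpr ⟨r, h6.2, y', h5, rfl⟩
      · exact h10 j (by omega)
    · intro j hj
      rcases j with _ | j
      · have h14 := h6.1
        simp only [zero_add, Finset.sum_range_one]
        have e : v + (u + x') + (e0 + y') = upd (v + u + x') (some e0) + y' := by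
          simp only [upd, add_assoc]
        change v + (u + x') + (e0 + y') ∈ B.C
        rw [e]
        exact h14
      · have h14 := h11 j (by omega)
        rw [Finset.sum_range_succ']
        have e : v + (∑ i ∈ Finset.range (j + 1), xx i + (u + x')) + yy j =
            v + (u + x') + ∑ i ∈ Finset.range (j + 1), xx i + yy j := by
          abel
        change v + (∑ i ∈ Finset.range (j + 1), xx i + (u + x')) + yy j ∈ B.C
        rw [e]
        exact h14
    · rw [Finset.sum_range_succ']
      have e : v + (∑ i ∈ Finset.range K, xx i + (u + x')) + (en' K).2 =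
          v + (u + x') + ∑ i ∈ Finset.range K, xx i + (en' K).2 := by
        abel
      change v + (∑ i ∈ Finset.range K, xx i + (u + x')) + (en' K).2 ∈ B.C
      rw [e]
      exact h12
    · exact h13

lemma acc_of_run (hB : B.NoReset) (K : ℕ) (f : ℕ → ℕ × ℕ) (v u : Vc m) (q : B.Q)
    (en p le x y) (h0 : en 0 = (q, u)) (h : Run B K f v en p le x y) :
    B.Acc (comb K f) q (v + u) := by
  induction K generalizing f v u q en p le x y with
  | zero =>
    obtain ⟨-, -, -, -, h5, h6⟩ := h
    rw [comb, acc_leaf]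
    rw [h0] at h5 h6
    exact ⟨by simpa using h5, h6⟩
  | succ K ih =>
    obtain ⟨h1, h2, h3, h4, h5, h6⟩ := h
    rw [comb, acc_uan B hB]
    obtain ⟨x', h7, h8⟩ := (mem_Xs B _ _ _ _).mp (h2 0 (by omega))
    rw [h0] at h7 h8
    refine ⟨p 0, x', h7, ?_⟩
    rw [acc_sg]
    obtain ⟨τ, hτ, h9, h10⟩ := h1 0 (by omega)
    refine ⟨τ, hτ, ?_, ?_⟩
    · rw [h9, acc_ubn B hB]
      obtain ⟨r, hr, y', h11, h12⟩ := (mem_Ys B _ _ _).mp (h3 0 (by omega))
      refine ⟨r, y', h11, ?_⟩
      rw [acc_leaf]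
      refine ⟨?_, hr⟩
      have h13 := h4 0 (by omega)
      rw [zero_add, Finset.sum_range_one, h8, h12] at h13
      have e : v + u + x' + (le 0).2 + y' = v + (u + x') + ((le 0).2 + y') := by abel
      change v + u + x' + (le 0).2 + y' ∈ B.C
      rw [e]
      exact h13
    · rw [h10]
      change B.Acc (comb K fun i => f (i + 1)) (en 1).1 (v + u + x' + (en 1).2)
      rw [add_assoc v u x', ← h8]
      refine ih (fun i => f (i + 1)) (v + x 0) (en 1).2 (en 1).1 (fun j => en (j + 1))
        (fun j => p (j + 1)) (fun j => le (j + 1)) (fun j => x (j + 1)) (fun j => y (j + 1)) rfl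
        ⟨?_, ?_, ?_, ?_, ?_, ?_⟩
      · exact fun j hj => h1 (j + 1) (by omega)
      · exact fun j hj => h2 (j + 1) (by omega)
      · exact fun j hj => h3 (j + 1) (by omega)
      · intro j hj
        have h13 := h4 (j + 1) (by omega)
        rw [Finset.sum_range_succ'] at h13
        have e : v + x 0 + ∑ i ∈ Finset.range (j + 1), x (i + 1) + y (j + 1) =
            v + (∑ i ∈ Finset.range (j + 1), x (i + 1) + x 0) + y (j + 1) := by abel
        rw [e]
        exact h13
      · rw [Finset.sum_range_succ'] at h5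
        have e : v + x 0 + ∑ i ∈ Finset.range K, x (i + 1) + (en (K + 1)).2 =
            v + (∑ i ∈ Finset.range K, x (i + 1) + x 0) + (en (K + 1)).2 := by abel
        rw [e]
        exact h5
      · exact h6

end runs

/-! ### Semilinearity of the set of runs with a given skeleton -/

lemma semilinear_affine {m : ℕ} {C : Set (Vc m)} (hC : IsSemilinearSet C) (e : Vc m) :
    IsSemilinearSet {v | v + e ∈ C} := by
  have h1 : IsSemilinearSet ((AddMonoidHom.snd (Vc m) (Vc m)) ⁻¹' C) := hC.preimage _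
  have h2 := isSemilinearSet_setOfPred_eq (M := Vc m × Vc m) (N := Vc m) e 0
    (AddMonoidHom.fst (Vc m) (Vc m)) (AddMonoidHom.snd (Vc m) (Vc m))
  have h3 := (h1.inter h2).image (AddMonoidHom.fst (Vc m) (Vc m))
  convert h3 using 1
  ext v
  constructor
  · intro hv
    refine ⟨(v, v + e), ⟨hv, ?_⟩, rfl⟩
    change e + v = 0 + (v + e)
    rw [zero_add, add_comm]
  · rintro ⟨⟨v', w⟩, ⟨h4, h5⟩, rfl⟩
    have h5' : e + v' = 0 + w := h5
    have h6 : w = v' + e := by rw [zero_add] at h5'; rw [← h5', add_comm]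
    subst h6
    exact h4

section homs

variable {m : ℕ} (K : ℕ)

/-- data of one segment: the length, the increments along the spine and along the branch -/
abbrev Dd (m : ℕ) : Type := ℕ × Vc m × Vc m

/-- the `j`-th component -/
def evh (j : ℕ) : (Fin K → Dd m) →+ Dd m :=
  if h : j < K then Pi.evalAddMonoidHom (fun _ => Dd m) ⟨j, h⟩ else 0

/-- the length -/
def hn (j : ℕ) : (Fin K → Dd m) →+ ℕ := (AddMonoidHom.fst ℕ (Vc m × Vc m)).comp (evh K j)

/-- the increments along the spine -/
def hx (j : ℕ) : (Fin K → Dd m) →+ Vc m :=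
  ((AddMonoidHom.fst (Vc m) (Vc m)).comp (AddMonoidHom.snd ℕ (Vc m × Vc m))).comp (evh K j)

/-- the increments along the branch -/
def hy (j : ℕ) : (Fin K → Dd m) →+ Vc m :=
  ((AddMonoidHom.snd (Vc m) (Vc m)).comp (AddMonoidHom.snd ℕ (Vc m × Vc m))).comp (evh K j)

/-- the sum of the first `j` increments along the spine -/
def hS (j : ℕ) : (Fin K → Dd m) →+ Vc m := ∑ i ∈ Finset.range j, hx K i

/-- the counters at the end of the branch `j` -/
def hSy (j : ℕ) : (Fin K → Dd m) →+ Vc m := hS K (j + 1) + hy K j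

lemma hS_apply (j : ℕ) (z : Fin K → Dd m) : hS K j z = ∑ i ∈ Finset.range j, hx K i z := by
  unfold hS
  rw [AddMonoidHom.finsetSum_apply]

lemma hn_apply (j : ℕ) (h : j < K) (z : Fin K → Dd m) : hn K j z = (z ⟨j, h⟩).1 := by
  unfold hn evh
  rw [dif_pos h]
  rfl

lemma hx_apply (j : ℕ) (h : j < K) (z : Fin K → Dd m) : hx K j z = (z ⟨j, h⟩).2.1 := by
  unfold hx evh
  rw [dif_pos h]
  rfl

lemma hy_apply (j : ℕ) (h : j < K) (z : Fin K → Dd m) : hy K j z = (z ⟨j, h⟩).2.2 := by
  unfold hy evh
  rw [dif_pos h]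
  rfl

end homs

/-- the runs with the skeleton `en, p, le` -/
def Zs {m : ℕ} (B : PTAR Sym rk m) (K : ℕ) (en : ℕ → En B) (p : ℕ → B.Q) (le : ℕ → En B) :
    Set (Fin K → Dd m) :=
  (⋂ j : Fin K, (((hn K j).prod (hx K j)) ⁻¹' Xs B (en j) (p j)) ∩
    ((((hn K j).prod (hy K j)) ⁻¹' Ys B (le j)) ∩ ((hSy K j) ⁻¹' B.C))) ∩
    (hS K K) ⁻¹' {v | v + (en K).2 ∈ B.C}

lemma semilinear_Zs {m : ℕ} (B : PTAR Sym rk m) (K : ℕ) (en : ℕ → En B) (p : ℕ → B.Q)
    (le : ℕ → En B) : IsSemilinearSet (Zs B K en p le) := by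
  have := B.finQ
  have hX : ∀ en p, IsSemilinearSet (Xs B en p) := by
    intro en p
    unfold Xs
    exact (semilinear_walk (finite_Ra B) _ _).vadd _
  have hY : ∀ le, IsSemilinearSet (Ys B le) := by
    intro le
    unfold Ys
    exact (IsSemilinearSet.iUnion fun p => semilinear_walk (finite_Rb B) _ _).vadd _
  unfold Zs
  apply IsSemilinearSet.inter
  · apply IsSemilinearSet.iInter
    intro j
    exact ((hX _ _).preimage _).inter (((hY _).preimage _).inter (B.semi.preimage _))
  · exact (semilinear_affine B.semi _).preimage _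

/-- a bound for the increments -/
lemma exists_bound {m : ℕ} (B : PTAR Sym rk m) :
    ∃ E : ℕ, ∀ q p n x, Walk (Ra B) q p (n, x) → ∀ l, x l ≤ n * E := by
  have := B.finQ
  have h1 : (⋃ q : B.Q, ⋃ r : B.Q, ⋃ v ∈ Ra B q r, ⋃ l : Fin m, {v.2 l}).Finite := by
    apply Set.finite_iUnion
    intro q
    apply Set.finite_iUnion
    intro r
    exact (finite_Ra B q r).biUnion fun v _ => Set.finite_iUnion fun l => Set.finite_singleton _
  obtain ⟨E, hE⟩ := h1.bddAbove
  refine ⟨E, fun q p n x h => ?_⟩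
  generalize hz : ((n, x) : ℕ × Vc m) = z at h
  induction h generalizing n x with
  | nil q =>
    have h3 : n = 0 := congrArg Prod.fst hz
    have h4 : x = 0 := congrArg Prod.snd hz
    subst h3 h4
    intro l
    exact Nat.zero_le _
  | @cons q r q' u w h3 _ ih =>
    obtain ⟨n', x'⟩ := w
    intro l
    have h5 : u.2 l ≤ E := by
      apply hE
      simp only [Set.mem_iUnion]
      exact ⟨q, r, u, h3, l, rfl⟩
    obtain ⟨τ, hτ, e, he, rfl⟩ := h3
    have h3 : n = 1 + n' := congrArg Prod.fst hz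
    have h4 : x = e + x' := congrArg Prod.snd hz
    subst h3 h4
    have h6 := ih n' x' rfl l
    change e l + x' l ≤ (1 + n') * E
    have h7 : e l ≤ E := h5
    rw [add_mul, one_mul]
    omega

lemma mem_Zs {m : ℕ} (B : PTAR Sym rk m) (K : ℕ) (en : ℕ → En B) (p : ℕ → B.Q)
    (le : ℕ → En B) (z : Fin K → Dd m) : z ∈ Zs B K en p le ↔
      (∀ j < K, (hn K j z, hx K j z) ∈ Xs B (en j) (p j) ∧ (hn K j z, hy K j z) ∈ Ys B (le j) ∧
        hS K (j + 1) z + hy K j z ∈ B.C) ∧ hS K K z + (en K).2 ∈ B.C := by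
  unfold Zs
  constructor
  · rintro ⟨h1, h2⟩
    refine ⟨fun j hj => ?_, h2⟩
    have h3 := Set.mem_iInter.mp h1 ⟨j, hj⟩
    exact ⟨h3.1, h3.2.1, h3.2.2⟩
  · rintro ⟨h1, h2⟩
    refine ⟨Set.mem_iInter.mpr fun j => ?_, h2⟩
    obtain ⟨h3, h4, h5⟩ := h1 j j.2
    exact ⟨h3, h4, h5⟩

/-! ### Skeletons -/

section skel

variable {m : ℕ} (B : PTAR Sym rk m)

/-- the entries which occur in the transitions, and the initial one -/
def Fe : Set (En B) :=
  {(B.q0, 0)} ∪ ⋃ q : B.Q, ⋃ τ ∈ B.Δ q .sig,
    {((τ (0 : Fin 2)).1, (τ (0 : Fin 2)).2.getD 0), ((τ (1 : Fin 2)).1, (τ (1 : Fin 2)).2.getD 0)}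

lemma finite_Fe : (Fe B).Finite := by
  have := B.finQ
  unfold Fe
  apply (Set.finite_singleton _).union
  apply Set.finite_iUnion
  intro q
  exact (B.finΔ q .sig).biUnion fun τ _ => Set.toFinite _

lemma mem_Fe {p : B.Q} {le ri : En B} (h : Sg B p le ri) : le ∈ Fe B ∧ ri ∈ Fe B := by
  obtain ⟨τ, hτ, h1, h2⟩ := h
  constructor
  · right
    simp only [Set.mem_iUnion]
    refine ⟨p, τ, hτ, Or.inl ?_⟩
    rw [h1]; rfl
  · right
    simp only [Set.mem_iUnion]
    refine ⟨p, τ, hτ, Or.inr ?_⟩
    rw [h2]; rfl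

/-- skeletons of length `K` -/
abbrev Sk (K : ℕ) : Type :=
  (Fin (K + 1) → Fe B) × (Fin (K + 1) → B.Q) × (Fin (K + 1) → Fe B)

variable {B}

/-- the entries of the segments -/
def Sk.en {K : ℕ} (s : Sk B K) (j : ℕ) : En B := (s.1 (Fin.ofNat (K + 1) j)).1

/-- the states at the binary nodes -/
def Sk.p {K : ℕ} (s : Sk B K) (j : ℕ) : B.Q := s.2.1 (Fin.ofNat (K + 1) j)

/-- the entries of the branches -/
def Sk.le {K : ℕ} (s : Sk B K) (j : ℕ) : En B := (s.2.2 (Fin.ofNat (K + 1) j)).1

/-- consistent skeletons -/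
def Sk.Good {K : ℕ} (s : Sk B K) : Prop :=
  s.en 0 = (B.q0, 0) ∧ (∀ j < K, Sg B (s.p j) (s.le j) (s.en (j + 1))) ∧
    (B.Δ (s.en K).1 .al).Nonempty

end skel

/-- No automaton without reset recognizes the language. -/
theorem no_PTA {m : ℕ} (B : PTAR Sym rk m) (hB : B.NoReset) : B.language ≠ A0.language := by
  classical
  intro hL
  have hfinQ := B.finQ
  have hfinF : Finite (Fe B) := finite_Fe B
  have hacc : ∀ K f, B.Acc (comb K f) B.q0 0 ↔ ∀ i < K, (f i).1 = (f i).2 := by
    intro K f
    rw [← A0_comb]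
    exact Set.ext_iff.mp hL (comb K f)
  set K := m + 1 with hK
  -- the finite family of linear sets
  have hsem : ∀ s : Sk B K, ∃ S : Set (Set (Fin K → Dd m)), S.Finite ∧ (∀ t ∈ S, IsLinearSet t) ∧
      Zs B K s.en s.p s.le = ⋃₀ S := fun s => semilinear_Zs B K s.en s.p s.le
  choose S hS1 hS2 hS3 using hsem
  obtain ⟨l, hl, a, d, had, hd⟩ := exists_component K (fun j => hn K j.val)
    (⋃ s ∈ {s : Sk B K | s.Good}, S s) ((Set.toFinite _).biUnion fun s _ => hS1 s)
    (by
      intro l hl
      obtain ⟨s, _, hs⟩ := Set.mem_iUnion₂.mp hl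
      exact hS2 s l hs)
    (by
      intro n
      have h1 : B.Acc (comb K fun j => (if h : j < K then n ⟨j, h⟩ else 0,
          if h : j < K then n ⟨j, h⟩ else 0)) B.q0 (0 + 0) := by
        rw [add_zero]
        exact (hacc _ _).mpr fun i _ => rfl
      obtain ⟨en, p, le, x, y, h0, h2, h3, h4, h5, h6, h7⟩ := run_of_acc B hB _ _ _ _ _ h1
      have hen : ∀ j ≤ K, en j ∈ Fe B := by
        intro j hj
        rcases j with _ | j
        · rw [h0]; exact Or.inl rfl
        · exact (mem_Fe B (h2 j (by omega))).2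
      have hle : ∀ j < K, le j ∈ Fe B := fun j hj => (mem_Fe B (h2 j hj)).1
      let s : Sk B K := (fun i => ⟨en i, hen i (by omega)⟩, fun i => p i,
        fun i => if h : i.val < K then ⟨le i, hle i h⟩ else ⟨en i, hen i (by omega)⟩)
      have sen : ∀ j ≤ K, s.en j = en j := by
        intro j hj
        have : (Fin.ofNat (K + 1) j).val = j := Nat.mod_eq_of_lt (by omega)
        unfold Sk.en
        change en (Fin.ofNat (K + 1) j).val = en j
        rw [this]
      have sp : ∀ j ≤ K, s.p j = p j := by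
        intro j hj
        have : (Fin.ofNat (K + 1) j).val = j := Nat.mod_eq_of_lt (by omega)
        unfold Sk.p
        change p (Fin.ofNat (K + 1) j).val = p j
        rw [this]
      have sle : ∀ j < K, s.le j = le j := by
        intro j hj
        have h8 : (Fin.ofNat (K + 1) j).val = j := Nat.mod_eq_of_lt (by omega)
        have h9 : (Fin.ofNat (K + 1) j).val < K := by omega
        unfold Sk.le
        change (if h : (Fin.ofNat (K + 1) j).val < K then
          (⟨le (Fin.ofNat (K + 1) j).val, hle _ h⟩ : Fe B) else _).1 = le j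
        rw [dif_pos h9]
        change le (Fin.ofNat (K + 1) j).val = le j
        rw [h8]
      have hgood : s.Good := by
        refine ⟨(sen 0 (by omega)).trans h0, fun j hj => ?_, ?_⟩
        · rw [sp j (by omega), sle j hj, sen (j + 1) (by omega)]
          exact h2 j hj
        · rw [sen K le_rfl]; exact h7
      have hz : (fun j : Fin K => (n j, x j, y j)) ∈ Zs B K s.en s.p s.le := by
        rw [mem_Zs]
        constructor
        · intro j hj
          have h8 := h3 j hj
          have h9 := h4 j hj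
          have h10 := h5 j hj
          simp only [dif_pos hj] at h8 h9
          refine ⟨?_, ?_, ?_⟩
          · rw [hn_apply K j hj, hx_apply K j hj, sen j (by omega), sp j (by omega)]
            exact h8
          · rw [hn_apply K j hj, hy_apply K j hj, sle j hj]
            exact h9
          · rw [hS_apply, hy_apply K j hj]
            rw [zero_add] at h10
            have : ∑ i ∈ Finset.range (j + 1), hx K i (fun j : Fin K => (n j, x j, y j)) =
                ∑ i ∈ Finset.range (j + 1), x i := by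
              apply Finset.sum_congr rfl
              intro i hi
              rw [hx_apply K i (by have := Finset.mem_range.mp hi; omega)]
            rw [this]
            exact h10
        · rw [hS_apply, sen K le_rfl]
          rw [zero_add] at h6
          have : ∑ i ∈ Finset.range K, hx K i (fun j : Fin K => (n j, x j, y j)) =
              ∑ i ∈ Finset.range K, x i := by
            apply Finset.sum_congr rfl
            intro i hi
            rw [hx_apply K i (Finset.mem_range.mp hi)]
          rw [this]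
          exact h6
      rw [hS3] at hz
      obtain ⟨l, hl, hz⟩ := hz
      refine ⟨l, Set.mem_iUnion₂.mpr ⟨s, hgood, hl⟩, _, hz, fun j => ?_⟩
      rw [hn_apply K j.val j.2])
  obtain ⟨s, hgood, hls⟩ := Set.mem_iUnion₂.mp hl
  have hsub : ∀ z ∈ l, z ∈ Zs B K s.en s.p s.le := by
    intro z hz
    rw [hS3]
    exact ⟨l, hls, hz⟩
  -- the periods do not change the later segments
  obtain ⟨E, hE⟩ := exists_bound B
  have hzero : ∀ i : Fin K, ∀ j < K, i.val < j → hx K j (d i) = 0 := by
    intro i j hj hij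
    have hnj : hn K j (d i) = 0 := (hd i).2 ⟨j, hj⟩ hij
    funext t
    by_contra hne
    have hpos : 0 < hx K j (d i) t := Nat.pos_of_ne_zero hne
    have h1 : ∀ k : ℕ, a + k • d i ∈ l := by
      intro k
      have := had (Pi.single i k)
      rwa [Finset.sum_eq_single i (fun b _ hb => by rw [Pi.single_eq_of_ne hb, zero_smul])
        (fun h => absurd (Finset.mem_univ i) h), Pi.single_eq_same] at this
    have h2 : ∀ k : ℕ, k * hx K j (d i) t ≤ (s.en j).2 t + hn K j a * E := by
      intro k
      have h3 := ((mem_Zs B K _ _ _ _).mp (hsub _ (h1 k))).1 j hj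
      obtain ⟨x', h4, h5⟩ := (mem_Xs B _ _ _ _).mp h3.1
      have h6 := hE _ _ _ _ h4 t
      have h7 := congrFun h5 t
      simp only [map_add, map_nsmul, hnj, smul_zero, add_zero] at h6
      rw [map_add, map_nsmul] at h7
      simp only [Pi.add_apply, Pi.smul_apply, smul_eq_mul] at h7
      omega
    have h3 := h2 ((s.en j).2 t + hn K j a * E + 1)
    have h4 := Nat.le_mul_of_pos_right ((s.en j).2 t + hn K j a * E + 1) hpos
    omega
  -- the dependency
  obtain ⟨c, c', hcc, hrel⟩ := exists_relation (fun i : Fin K => hS K (i.val + 1) (d i))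
  have hne : (Finset.univ.filter fun i => c i ≠ c' i).Nonempty := by
    obtain ⟨i, hi⟩ := Function.ne_iff.mp hcc
    exact ⟨i, by simpa using hi⟩
  set j0 := (Finset.univ.filter fun i => c i ≠ c' i).max' hne with hj0
  have hj0ne : c j0 ≠ c' j0 := by
    have := Finset.max'_mem _ hne
    simpa using this
  have hgt : ∀ i, j0 < i → c i = c' i := by
    intro i hi
    by_contra hcon
    have := Finset.le_max' (Finset.univ.filter fun i => c i ≠ c' i) i (by simpa using hcon)
    exact absurd hi (not_lt.mpr this)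
  -- the two runs
  set z := a + ∑ i, c i • d i with hz
  set z' := a + ∑ i, c' i • d i with hz'
  have hzm := (mem_Zs B K _ _ _ _).mp (hsub _ (had c))
  have hzm' := (mem_Zs B K _ _ _ _).mp (hsub _ (had c'))
  rw [← hz] at hzm
  rw [← hz'] at hzm'
  have hstab : ∀ i : Fin K, i ≤ j0 → hS K (j0.val + 1) (d i) = hS K (i.val + 1) (d i) := by
    intro i hi
    rw [hS_apply, hS_apply]
    symm
    apply Finset.sum_subset
    · intro t ht
      rw [Finset.mem_range] at ht ⊢
      have : i.val ≤ j0.val := hi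
      omega
    · intro t ht1 ht2
      rw [Finset.mem_range] at ht1 ht2
      have := j0.2
      exact hzero i t (by omega) (by omega)
  have hSeq : hS K (j0.val + 1) z = hS K (j0.val + 1) z' := by
    rw [hz, hz', map_add, map_add, map_sum, map_sum]
    congr 1
    simp only [map_nsmul]
    funext t
    have h1 := congrFun hrel t
    rw [Finset.sum_apply, Finset.sum_apply] at h1 ⊢
    simp only [Pi.smul_apply, smul_eq_mul] at h1 ⊢
    zify at h1 ⊢
    rw [← sub_eq_zero, ← Finset.sum_sub_distrib] at h1 ⊢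
    rw [← h1]
    apply Finset.sum_congr rfl
    intro i _
    rcases le_or_gt i j0 with hi | hi
    · rw [hstab i hi]
    · rw [hgt i hi]; ring
  have hnne : hn K j0.val z ≠ hn K j0.val z' := by
    intro h
    rw [hz, hz', map_add, map_add, map_sum, map_sum] at h
    simp only [map_nsmul, smul_eq_mul] at h
    have h1 := Nat.add_left_cancel h
    zify at h1
    rw [← sub_eq_zero, ← Finset.sum_sub_distrib, Finset.sum_eq_single j0] at h1
    · have h2 := (hd j0).1
      rw [← sub_mul] at h1
      rcases mul_eq_zero.mp h1 with h3 | h3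
      · apply hj0ne; omega
      · omega
    · intro i _ hi
      rcases lt_or_gt_of_ne hi with h2 | h2
      · rw [(hd i).2 j0 h2]; simp
      · rw [hgt i h2]; ring
    · exact fun h2 => absurd (Finset.mem_univ _) h2
  -- the accepted tree which does not belong to the language
  have hrun : Run B K (fun j => (hn K j z, if j = j0.val then hn K j z' else hn K j z)) 0
      s.en s.p s.le (fun j => hx K j z) (fun j => if j = j0.val then hy K j z' else hy K j z) := by
    refine ⟨hgood.2.1, fun j hj => (hzm.1 j hj).1, fun j hj => ?_, fun j hj => ?_, ?_, hgood.2.2⟩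
    · dsimp only
      split_ifs with hjj
      · exact (hzm'.1 j hj).2.1
      · exact (hzm.1 j hj).2.1
    · dsimp only
      rw [zero_add, ← hS_apply]
      split_ifs with hjj
      · subst hjj
        rw [hSeq]
        exact (hzm'.1 _ hj).2.2
      · exact (hzm.1 j hj).2.2
    · rw [zero_add, ← hS_apply]
      exact hzm.2
  have h1 := acc_of_run B hB K _ 0 0 B.q0 _ _ _ _ _ hgood.1 hrun
  rw [add_zero, hacc] at h1
  have h2 := h1 j0.val j0.2
  simp only [if_true] at h2
  exact hnne h2

/-- There is a tree language (over a finite ranked alphabet) which is recognized by a Parikh tree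
automaton with reset, but by no Parikh tree automaton without reset. -/
theorem result : ∃ (S : Type) (_ : Finite S) (rk : S → ℕ) (L : Set (Tree S rk)),
    PTARRecognizable L ∧ ¬ PTARecognizable L :=
  ⟨Sym, inferInstance, rk, A0.language, ⟨2, by norm_num, A0, rfl⟩, fun ⟨_, _, B, hB, hL⟩ =>
    no_PTA B hB hL⟩

end Pool.Agent.Results.MP_78a33a_lc.ResetNeeded
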